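import Mathlib
import Pool.Agent.Lib.helper13.Achieve2

set_option autoImplicit false

namespace Pool.Agent.Results.MP_1e50ba_an.Cantor

/-- The term `x_n`: `1/2^n` for odd `n`, `1/(2^n+1)` for even `n`. -/
noncomputable def x (n : ℕ) : ℝ := if Odd n then 1 / 2 ^ n else 1 / (2 ^ n + 1)

/-- The set of all subsums `∑_{n ∈ A} x_n`, `A ⊆ {1,2,…}` (written with `n = i + 1`). -/
def achievementSet : Set ℝ :=
  {t | ∃ A : Set ℕ, t = ∑' i, A.indicator (fun i => x (i + 1)) i}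

theorem ev (n : ℕ) : (1 / 2) * (1 / 4 : ℝ) ^ n ≤ 1 / 2 ^ n - 1 / (2 ^ n + 1) ∧
    1 / 2 ^ n - 1 / (2 ^ n + 1) ≤ (1 / 4 : ℝ) ^ n := by
  have h1 : (1 : ℝ) ≤ 2 ^ n := one_le_pow₀ (by norm_num)
  have h2 : (1 / 4 : ℝ) ^ n = 1 / (2 ^ n * 2 ^ n) := by rw [← mul_pow, one_div_pow]; norm_num
  rw [h2]
  generalize (2 : ℝ) ^ n = u at *
  have h3 : 1 / u - 1 / (u + 1) = 1 / (u * (u + 1)) := by field_simp; ring
  rw [h3, div_mul_div_comm, one_mul]
  constructor <;> apply one_div_le_one_div_of_le (by positivity) <;> nlinarith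

theorem xle (n : ℕ) : x n ≤ H13Ach.h n ∧ H13Ach.h n - x n ≤ (1 / 4) ^ n := by
  have h1 := ev n
  have h2 : (0 : ℝ) < (1 / 4) ^ n := by positivity
  unfold x H13Ach.h
  rw [one_div_pow (a := (2 : ℝ))]
  split_ifs <;> constructor <;> linarith [h1.1, h1.2]

theorem xd (m : ℕ) : |x (m + 1) - H13Ach.h (m + 1)| ≤ (1 / 4) ^ (m + 1) := by
  rw [abs_sub_comm, abs_of_nonneg (sub_nonneg.mpr (xle _).1)]
  exact (xle _).2

/-- The achievement set of the sequence is homeomorphic to the Cantor set. -/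
theorem result : Nonempty (achievementSet ≃ₜ cantorSet) := by
  refine H13Ach.cantor' (x := fun i => x (i + 1)) (q := 1 / 4) (c := 1 / 8) (π := 1)
    (by norm_num) (by norm_num) (by norm_num) (by norm_num) (fun n => ?_) xd (fun m hm => ?_)
  · unfold x; split_ifs <;> positivity
  · have hs := H13Ach.summ (x := fun i => x (i + 1)) (q := 1 / 4) (by norm_num) (by norm_num) xd
    have h1 : ∑' i, x (i + 1 + (m + 1) + 1) ≤ H13Ach.h (m + 1 + 1) := by
      refine hasSum_le (fun i => ?_)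
        ((summable_nat_add_iff 1).mpr ((summable_nat_add_iff (m + 1)).mpr hs)).hasSum
        (H13Ach.h_sum (m + 1 + 1))
      rw [show i + 1 + (m + 1) + 1 = i + (m + 1 + 1) + 1 by ring]
      exact (xle _).1
    have h2 : x (m + 1) = 1 / 2 ^ (m + 1) := if_pos (Nat.odd_iff.mpr hm)
    have h3 : x (0 + (m + 1) + 1) = 1 / (2 ^ (m + 1 + 1) + 1) := by
      rw [zero_add]; exact if_neg (by rw [Nat.odd_iff]; omega)
    have h4 := (ev (m + 1 + 1)).1
    have h5 : (1 : ℝ) / 2 ^ (m + 1) = 2 * (1 / 2 ^ (m + 1 + 1)) := by field_simp; ring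
    rw [((summable_nat_add_iff (m + 1)).mpr hs).tsum_eq_zero_add]
    unfold H13Ach.h at h1
    rw [one_div_pow] at h1
    rw [pow_succ (1 / 4 : ℝ) (m + 1)] at h4
    linarith

end Pool.Agent.Results.MP_1e50ba_an.Cantor
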